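import Pool.Agent.Helper60.RedBw.Final

/-!
MP_271714_co, Q1 (full positive answer, in a stronger form): every class of finite graphs that
excludes a fixed complete bipartite subgraph and has bounded reduced bandwidth has linear
expansion; monotonicity of the class is not needed.

The definitions (`Trigraph`, `IsContraction`, `bandwidth`, `ReducesWithin`, `reducedBandwidth`,
`IsShallowMinor`, `nabla`, `GraphClass` and its properties) are in
`Pool.Agent.Helper60.RedBw.Defs`.
-/

namespace Pool.Agent.Results.MP_271714_co.LinearExpansion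

open Pool.Agent.Helper60.RedBw

/-- First part: for all `s, t, k` there is `c` such that every finite graph `G` without a `K_{s,t}`
subgraph and with reduced bandwidth at most `k` satisfies `∇_r(G) ≤ c (r + 1)` for all `r`, and
each of its `r`-shallow minors `H` has at most `c (r + 1) |V(H)|` edges.
Second part: the positive answer to Q1. -/
theorem result :
    (∀ s t k : ℕ, ∃ c : ℕ, ∀ (V : Type) [Fintype V] (G : SimpleGraph V),
      ¬ (completeBipartiteGraph (Fin s) (Fin t)).IsContained G → reducedBandwidth G ≤ k →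
        ∀ r : ℕ, nabla r G ≤ c * (r + 1) ∧
          ∀ (m : ℕ) (H : SimpleGraph (Fin m)), IsShallowMinor r H G →
            (H.edgeSet.ncard : ℝ) ≤ c * (r + 1) * m) ∧
    (∀ C : GraphClass, C.IsMonotone → C.ExcludesBiclique → C.BoundedReducedBandwidth →
      C.PolynomialExpansion) := by
  have main : ∀ s t k : ℕ, ∃ c : ℕ, ∀ (V : Type) [Fintype V] (G : SimpleGraph V),
      ¬ (completeBipartiteGraph (Fin s) (Fin t)).IsContained G → reducedBandwidth G ≤ k →
        ∀ r : ℕ, nabla r G ≤ c * (r + 1) ∧
          ∀ (m : ℕ) (H : SimpleGraph (Fin m)), IsShallowMinor r H G →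
            (H.edgeSet.ncard : ℝ) ≤ c * (r + 1) * m := by
    intro s t k
    obtain ⟨c, hc⟩ := linear_expansion s t k
    exact ⟨c, fun V _ G h1 h2 r => ⟨(hc V G h1 h2 r).1, (hc V G h1 h2 r).2⟩⟩
  refine ⟨main, ?_⟩
  rintro C - ⟨s, t, -, -, hst⟩ ⟨k, hk⟩
  obtain ⟨c, hc⟩ := main s t k
  refine ⟨Polynomial.C (c : ℝ) * (Polynomial.X + 1), ?_⟩
  intro n G hG r
  have := (hc (Fin n) G (hst n G hG) (hk n G hG) r).1
  simpa using this

end Pool.Agent.Results.MP_271714_co.LinearExpansion
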